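import Pool.Agent.Q56.DP.PoleDefs

/-!
The numbers of Tate classes and of generalised Tate classes of a given codimension: definitions
-/

set_option autoImplicit false

open CategoryTheory AlgebraicGeometry

universe u v w

namespace Pool.Agent.Q56.PG

open Pool.Agent.H914 Pool.Agent.H914.VarClass Pool.Agent.H914.VarClass.Obj
open Pool.Agent.Q55 (GaloisAction IsTate)
open Pool.Agent.Q57.OP (res)
open Pool.Agent.Y133.Half (dimOf)
open Pool.Agent.Q56.DP (IsGenTate)

variable {k : Type u} [Field k] {𝒱 : VarClass k} {ops : CycleOps 𝒱}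
  {W : WeilCohomology.{u, v} ops} {Γ : Type w} [Group Γ]

/-- The dimension of the space of the Tate classes in `H^(2 j)(X)`. -/
noncomputable def tateDim (G : GaloisAction W Γ) (X : 𝒱.Obj) (j : ℕ) : ℕ :=
  dimOf W {c : W.H X | IsTate G X j c}

/-- The dimension of the space of the generalised Tate classes in `H^(2 j)(X)`. -/
noncomputable def poleOrder (G : GaloisAction W Γ) (D : Subgroup Γ) (φ : Γ) (X : 𝒱.Obj)
    (j : ℕ) : ℕ :=
  dimOf W {c : W.H X | IsGenTate G D φ X j c}

/-- The form `(x, y) ↦ tr (x y h)` on the classes in `H^(2 j)(X)` which are fixed, up to the twist,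
by a subgroup of finite index of `D`, is nondegenerate. -/
def NondegOn (G : GaloisAction W Γ) (D : Subgroup Γ) (X : 𝒱.Obj) (j : ℕ) (h : X.Cycles) : Prop :=
  ∀ x, IsTate (res G D) X j x →
    (∀ y, IsTate (res G D) X j y → W.tr X (x * y * W.cl X h) = 0) → x = 0

/-- The matrix of the intersection numbers `z a · z b · h`. -/
noncomputable def interMatrix (ops : CycleOps 𝒱) {X : 𝒱.Obj} (h : X.Cycles) {r : ℕ}
    (z : Fin r → X.Cycles) : Matrix (Fin r) (Fin r) ℚ :=
  Matrix.of fun a b => X.V.degCycle (ops.mul (ops.mul (z a) (z b)) h)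

end Pool.Agent.Q56.PG
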