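import Pool.Agent.Q56.PG.Lin
import Pool.Agent.Q56.PG.Defs
import Pool.Agent.Q56.DP.Poles

/-!
Parity of the number of the Tate classes, and the case of defect at most two.
-/

set_option autoImplicit false
set_option linter.unusedSectionVars false

open CategoryTheory AlgebraicGeometry

universe u v v' w

namespace Pool.Agent.Q56.PG

open Module
open Pool.Agent.H914 Pool.Agent.H914.VarClass Pool.Agent.H914.VarClass.Obj
  Pool.Agent.H914.WeilCohomology
open Pool.Agent.Q55 (GaloisAction SubAction Virtually IsTate tatePred)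
open Pool.Agent.Y133.Half (dimOf)
open Pool.Agent.Q57.ZI
open Pool.Agent.Q57.OP
open Pool.Agent.Q56.NS (sb sb_apply sb_pow_eq)
open Pool.Agent.Q56.DP

/-- A largest member of a directed family of subspaces. -/
theorem exists_top {K V : Type*} [Field K] [AddCommGroup V] [Module K V] [FiniteDimensional K V]
    {p : ℕ → Prop} (hp : ∃ t, 0 < t ∧ p t) (hpm : ∀ t r, 0 < t → 0 < r → p t → p (t * r))
    (S : ℕ → Submodule K V) (hS : ∀ t r, 0 < t → 0 < r → p t → S t ≤ S (t * r)) :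
    ∃ t, 0 < t ∧ p t ∧ ∀ t', 0 < t' → p t' → S t' ≤ S t := by
  obtain ⟨t₀, ht₀, hpt₀⟩ := hp
  obtain ⟨M, ⟨t, ht, hpt, rfl⟩, hmax⟩ := WellFounded.has_min
    (wellFounded_gt (α := Submodule K V)) {M | ∃ t, 0 < t ∧ p t ∧ M = S t} ⟨_, t₀, ht₀, hpt₀, rfl⟩
  refine ⟨t, ht, hpt, fun t' ht' hpt' => ?_⟩
  have h1 := hS t t' ht ht' hpt
  have h2 := hmax (S (t * t')) ⟨t * t', Nat.mul_pos ht ht', hpm _ _ ht ht' hpt, rfl⟩
  have h3 : S (t * t') ≤ S t := by
    by_contra hcon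
    exact h2 (lt_of_le_not_ge h1 hcon)
  refine le_trans ?_ h3
  rw [mul_comm]
  exact hS t' t ht' ht hpt'

variable {k : Type u} [Field k] {𝒱 : VarClass k} {ops : CycleOps 𝒱}
  {W : WeilCohomology.{u, v} ops} {Γ : Type w} [Group Γ] {G : GaloisAction W Γ}
  {D : Subgroup Γ} {φ : Γ} {X Y Z : 𝒱.Obj}

/-- The operator `φ ^ t - χ (φ ^ t) ^ j`. -/
noncomputable def dif (G : GaloisAction W Γ) (φ : Γ) (Z : 𝒱.Obj) (j t : ℕ) :
    Module.End W.K (W.H Z) := sb (L G Z (φ ^ t)) ((G.χ (φ ^ t) : W.K) ^ j)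

theorem dif_mul {j t r : ℕ} (hd : φ ^ t ∈ (G.ρ Z).dom) :
    ∃ P : Module.End W.K (W.H Z), Commute P (dif G φ Z j t) ∧
      dif G φ Z j (t * r) = P * dif G φ Z j t := by
  refine ⟨∑ i ∈ Finset.range r, L G Z (φ ^ t) ^ i *
    (((G.χ (φ ^ t) : W.K) ^ j) • (1 : Module.End W.K (W.H Z))) ^ (r - 1 - i), ?_, ?_⟩
  rotate_left
  · have e1 : (G.χ (φ ^ (t * r)) : W.K) ^ j = ((G.χ (φ ^ t) : W.K) ^ j) ^ r := by
      rw [pow_mul φ, map_pow (G.χ) (φ ^ t) r, Units.val_pow_eq_pow_val, pow_right_comm]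
    have e2 : L G Z (φ ^ (t * r)) = L G Z (φ ^ t) ^ r := by rw [pow_mul, L_pow G hd]
    rw [dif, e1, e2, sb_pow_eq]
    rfl
  · have hcF : Commute (L G Z (φ ^ t)) (dif G φ Z j t) := by
      rw [dif, sb]
      exact (Commute.refl _).sub_right ((Commute.one_right _).smul_right _)
    refine Commute.sum_left _ _ _ fun i _ => ?_
    refine (hcF.pow_left i).mul_left ?_
    refine Commute.pow_left ?_ _
    exact (Commute.one_left _).smul_left _

theorem ker_dif_le {j t r n : ℕ} (hd : φ ^ t ∈ (G.ρ Z).dom) :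
    LinearMap.ker (dif G φ Z j t ^ n) ≤ LinearMap.ker (dif G φ Z j (t * r) ^ n) := by
  obtain ⟨P, hc, hP⟩ := dif_mul (G := G) (Z := Z) (j := j) (r := r) hd
  intro x hx
  rw [LinearMap.mem_ker] at hx ⊢
  rw [hP, hc.mul_pow, Module.End.mul_apply, hx, map_zero]

theorem dif_iterate (j t : ℕ) (m : ℕ) (c : W.H Z) :
    (fun a : W.H Z => (G.ρ Z).act (φ ^ t) a - (G.χ (φ ^ t) : W.K) ^ j • a)^[m] c =
      (dif G φ Z j t ^ m) c := by
  induction m generalizing c with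
  | zero => rfl
  | succ m ih =>
    rw [Function.iterate_succ_apply, ih, pow_succ, Module.End.mul_apply]
    rfl

/-- One level for all Tate classes and generalised Tate classes. -/
theorem exists_uniform_level [D.Normal] (hφ : ∀ g : Γ, ∃ m : ℤ, ∃ d ∈ D, g = φ ^ m * d) (j : ℕ)
    {p : Γ → Prop} (hp : Virtually p) :
    ∃ s, 0 < s ∧ p (φ ^ s) ∧ φ ^ s ∈ (G.ρ X).dom ∧
      (∀ c, IsTate G X j c ↔ c ∈ geo G D X j ∧ dif G φ X j s c = 0) ∧
      (∀ c, IsGenTate G D φ X j c ↔ c ∈ geo G D X j ∧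
        (dif G φ X j s ^ (finrank W.K (W.H X) + 1)) c = 0) := by
  classical
  set n := finrank W.K (W.H X) + 1 with hn
  have hdom : ∃ t, 0 < t ∧ φ ^ t ∈ (G.ρ X).dom := by
    obtain ⟨t, ht, h⟩ := exists_level (virt_dom G X) φ
    have := h 1
    rw [mul_one] at this
    exact ⟨t, ht, this⟩
  have hdm : ∀ t r, 0 < t → 0 < r → φ ^ t ∈ (G.ρ X).dom → φ ^ (t * r) ∈ (G.ρ X).dom := by
    intro t r _ _ h
    rw [pow_mul]; exact Subgroup.pow_mem _ h r
  obtain ⟨t₁, ht₁, hd₁, hm₁⟩ := exists_top (p := fun t => φ ^ t ∈ (G.ρ X).dom) hdom hdm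
    (fun t => LinearMap.ker (dif G φ X j t ^ 1)) fun t r _ _ h => ker_dif_le h
  obtain ⟨t₂, ht₂, hd₂, hm₂⟩ := exists_top (p := fun t => φ ^ t ∈ (G.ρ X).dom) hdom hdm
    (fun t => LinearMap.ker (dif G φ X j t ^ n)) fun t r _ _ h => ker_dif_le h
  obtain ⟨t₃, ht₃, hp⟩ := exists_level hp φ
  set s := t₁ * t₂ * t₃ with hs
  have hs0 : 0 < s := by positivity
  have hds : φ ^ s ∈ (G.ρ X).dom := by
    rw [hs, mul_assoc]; exact hdm _ _ ht₁ (Nat.mul_pos ht₂ ht₃) hd₁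
  refine ⟨s, hs0, ?_, hds, fun c => ⟨fun hc => ?_, fun hc => ?_⟩, fun c => ⟨fun hc => ?_,
    fun hc => ?_⟩⟩
  · rw [hs, mul_comm]; exact hp _
  · refine ⟨tateOn_of_tate G D hc, ?_⟩
    obtain ⟨s', hs', h⟩ := exists_level (Virtually.and (virt_dom G X) hc.2) φ
    have h1 := h 1
    rw [mul_one] at h1
    have h2 : c ∈ LinearMap.ker (dif G φ X j s' ^ 1) := by
      rw [LinearMap.mem_ker, pow_one, dif, sb_apply, DP.L_apply, h1.2 h1.1, sub_self]
    have h3 := ker_dif_le (r := t₂ * t₃) (n := 1) hd₁ (hm₁ s' hs' h1.1 h2)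
    rw [← mul_assoc, ← hs, LinearMap.mem_ker, pow_one] at h3
    exact h3
  · have h2 : Deep G D φ 0 X j c :=
      ⟨s, hs0, hds, c, hc.1, by rw [zero_add, pow_one]; exact hc.2, rfl⟩
    exact deep_tate hφ h2
  · obtain ⟨hc1, s', m', hs', hd', h0⟩ := hc
    refine ⟨hc1, ?_⟩
    rw [dif_iterate] at h0
    have h1 : c ∈ LinearMap.ker (dif G φ X j s' ^ n) := by
      have h2 : c ∈ LinearMap.ker (dif G φ X j s' ^ m') := h0
      have h3 := Module.End.ker_pow_le_ker_pow_finrank (dif G φ X j s') m' h2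
      rw [LinearMap.mem_ker] at h3 ⊢
      rw [hn, pow_succ', Module.End.mul_apply, h3, map_zero]
    have h3 := ker_dif_le (r := t₁ * t₃) (n := n) hd₂ (hm₂ s' hs' hd' h1)
    rw [← mul_assoc, mul_comm t₂ t₁, ← hs, LinearMap.mem_ker] at h3
    exact h3
  · exact ⟨hc.1, s, n, hs0, hds, by rw [dif_iterate]; exact hc.2⟩

/-- **Parity and gap for the Tate classes.** -/
theorem parity_gap [D.Normal] (hφ : ∀ g : Γ, ∃ m : ℤ, ∃ d ∈ D, g = φ ^ m * d) {j e : ℕ}
    (hje : 2 * j + e = X.dim) {h : X.Cycles} (hh : X.IsCyc e h) (hnd : NondegOn G D X j h) :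
    (∃ m, poleOrder G D φ X j = tateDim G X j + 2 * m) ∧
      ∀ (r : ℕ) (z : Fin r → X.Cycles), (∀ i, X.IsCyc j (z i)) → (interMatrix ops h z).det ≠ 0 →
        r ≤ tateDim G X j ∧ (r < poleOrder G D φ X j → r < tateDim G X j) := by
  classical
  obtain ⟨s, hs, hη, hd, hT, hP⟩ := exists_uniform_level (G := G) (D := D) (X := X) hφ j
    (G.cl_act X e h hh)
  have hη := hη hd
  set χs : W.K := (G.χ (φ ^ s) : W.K) with hχs
  have hχ0 : ∀ n, χs ^ n ≠ 0 := fun n => chi_ne (G := G) (φ ^ s) n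
  set n := finrank W.K (W.H X) + 1 with hn
  let E : Submodule W.K (W.H X) := geo G D X j
  have hEst : ∀ x ∈ E, L G X (φ ^ s) x ∈ E := fun x hx => geo_stable G D hd hx
  let u : Module.End W.K E := (χs ^ j)⁻¹ • (L G X (φ ^ s)).restrict hEst
  have hu : ∀ x : E, ((u x : E) : W.H X) = (χs ^ j)⁻¹ • (G.ρ X).act (φ ^ s) (x : W.H X) :=
    fun x => rfl
  let B₀ : W.H X →ₗ[W.K] W.H X →ₗ[W.K] W.K :=
    (LinearMap.mul W.K (W.H X)).compr₂ (W.tr X ∘ₗ LinearMap.mulRight W.K (W.cl X h))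
  have hB₀ : ∀ x y, B₀ x y = W.tr X (x * y * W.cl X h) := fun x y => rfl
  let B : E →ₗ[W.K] E →ₗ[W.K] W.K := B₀.domRestrict₁₂ E E
  have hB : ∀ x y : E, B x y = W.tr X ((x : W.H X) * y * W.cl X h) := fun x y => rfl
  have hsymm : ∀ x y, B x y = B y x := by
    intro x y
    rw [hB, hB, W.even_comm (p := j) x.2.1 (y : W.H X)]
  have hiso : ∀ x y, B (u x) (u y) = B x y := by
    intro x y
    rw [hB, hB, hu, hu]
    have e1 : (χs ^ j)⁻¹ • (G.ρ X).act (φ ^ s) (x : W.H X) *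
        ((χs ^ j)⁻¹ • (G.ρ X).act (φ ^ s) (y : W.H X)) * W.cl X h =
        ((χs ^ j)⁻¹ * (χs ^ j)⁻¹ * (χs ^ e)⁻¹) •
          (G.ρ X).act (φ ^ s) ((x : W.H X) * y * W.cl X h) := by
      rw [map_mul, map_mul, hη, smul_mul_smul_comm, smul_mul_assoc, mul_smul_comm, smul_smul]
      congr 1
      rw [mul_assoc, mul_assoc, inv_mul_cancel₀ (hχ0 e), mul_one]
    rw [e1, map_smul, (G.isGalois X).tr_act _ hd, smul_eq_mul, ← hχs, ← mul_assoc]
    have e2 : (χs ^ j)⁻¹ * (χs ^ j)⁻¹ * (χs ^ e)⁻¹ * χs ^ X.dim = 1 := by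
      rw [← hje, pow_add, two_mul, pow_add]
      field_simp [hχ0 j, hχ0 e]
    rw [e2, one_mul]
  have hnd' : ∀ x, (∀ y, B x y = 0) → x = 0 := by
    intro x hx
    exact Subtype.ext (hnd x x.2 fun y hy => hx ⟨y, hy⟩)
  -- the powers of `u - 1`
  have hpow : ∀ (m : ℕ) (x : E), ((((u - 1) ^ m : Module.End W.K E) x : E) : W.H X) =
      ((χs ^ j)⁻¹) ^ m • (dif G φ X j s ^ m) (x : W.H X) := by
    intro m
    induction m with
    | zero => intro x; simp
    | succ m ih =>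
      intro x
      rw [pow_succ, Module.End.mul_apply, ih, pow_succ (dif G φ X j s), Module.End.mul_apply]
      have e1 : (((u - 1) x : E) : W.H X) = (χs ^ j)⁻¹ • dif G φ X j s (x : W.H X) := by
        rw [LinearMap.sub_apply, Module.End.one_apply, Submodule.coe_sub, hu, dif, sb_apply,
          DP.L_apply, smul_sub, smul_smul, ← hχs, inv_mul_cancel₀ (hχ0 j), one_smul]
      rw [e1, map_smul, smul_smul, ← pow_succ]
  have hker : ∀ (m : ℕ) (x : E), x ∈ LinearMap.ker ((u - 1) ^ m : Module.End W.K E) ↔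
      (dif G φ X j s ^ m) (x : W.H X) = 0 := by
    intro m x
    rw [LinearMap.mem_ker, ← Subtype.coe_inj, hpow]
    constructor
    · intro h1
      exact (smul_eq_zero.1 h1).resolve_left (pow_ne_zero _ (inv_ne_zero (hχ0 j)))
    · intro h1
      rw [h1, smul_zero]
      rfl
  have hdim : ∀ (m : ℕ) (S : Set (W.H X)),
      (∀ c, c ∈ S ↔ c ∈ E ∧ (dif G φ X j s ^ m) c = 0) →
      dimOf W S = finrank W.K (LinearMap.ker ((u - 1) ^ m : Module.End W.K E)) := by
    intro m S hS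
    have e1 : Submodule.span W.K S =
        (LinearMap.ker ((u - 1) ^ m : Module.End W.K E)).map E.subtype := by
      apply le_antisymm
      · rw [Submodule.span_le]
        intro c hc
        obtain ⟨h1, h2⟩ := (hS c).1 hc
        exact ⟨⟨c, h1⟩, (hker m _).2 h2, rfl⟩
      · rintro _ ⟨x, hx, rfl⟩
        exact Submodule.subset_span ((hS _).2 ⟨x.2, (hker m x).1 hx⟩)
    change finrank W.K (Submodule.span W.K S) = _
    rw [e1]
    exact (Submodule.equivMapOfInjective _ E.injective_subtype _).finrank_eq.symm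
  have hp : poleOrder G D φ X j = finrank W.K (LinearMap.ker ((u - 1) ^ n : Module.End W.K E)) :=
    hdim n _ fun c => hP c
  have ht : tateDim G X j = finrank W.K (LinearMap.ker (u - 1)) := by
    have := hdim 1 {c : W.H X | IsTate G X j c} fun c => by
      rw [pow_one]; exact hT c
    rwa [pow_one] at this
  have hn' : finrank W.K E ≤ n := (Submodule.finrank_le E).trans (Nat.le_succ _)
  obtain ⟨h1, h2⟩ := main_lin B hsymm hnd' u hiso hn' (Nat.le_add_left 1 _)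
  rw [hp, ht]
  refine ⟨h1, fun r z hz hdet => ?_⟩
  have hzT : ∀ i, IsTate G X j (W.cl X (z i)) := fun i => ⟨W.cl_mem (hz i), G.cl_act X j _ (hz i)⟩
  have hzE : ∀ i, W.cl X (z i) ∈ E := fun i => tateOn_of_tate G D (hzT i)
  refine h2 r (fun i => ⟨W.cl X (z i), hzE i⟩) (fun i => ?_) ?_
  · have h3 := ((hT _).1 (hzT i)).2
    have h4 : (⟨W.cl X (z i), hzE i⟩ : E) ∈ LinearMap.ker ((u - 1) ^ 1 : Module.End W.K E) := by
      rw [hker, pow_one]; exact h3
    rw [pow_one, LinearMap.mem_ker, LinearMap.sub_apply, Module.End.one_apply, sub_eq_zero] at h4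
    exact h4
  · have e1 : (Matrix.of fun i k => B ⟨W.cl X (z i), hzE i⟩ ⟨W.cl X (z k), hzE k⟩) =
        (algebraMap ℚ W.K).mapMatrix (interMatrix ops h z) := by
      ext a b
      rw [Matrix.of_apply, hB, RingHom.mapMatrix_apply, Matrix.map_apply, interMatrix,
        Matrix.of_apply]
      change W.tr X (W.cl X (z a) * W.cl X (z b) * W.cl X h) = _
      rw [← W.cl_mul, ← W.cl_mul, W.tr_cl]
      · simp
      · have := ops.mul_mem (ops.mul_mem (hz a) (hz b)) hh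
        rwa [← two_mul, hje] at this
    rw [e1, ← RingHom.map_det]
    exact (map_ne_zero _).2 hdet

end Pool.Agent.Q56.PG
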