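import Mathlib

/-!
Parity of the dimension of the fixed space of a unipotent isometry of a symmetric form.
-/

set_option autoImplicit false
set_option linter.unusedSectionVars false

namespace Pool.Agent.Q56.PG

open Module

variable {K : Type*} [Field K] [CharZero K] {V : Type*} [AddCommGroup V] [Module K V]

/-- A space with a nondegenerate antisymmetric form has even dimension. -/
theorem even_of_alt [FiniteDimensional K V] (C : V →ₗ[K] V →ₗ[K] K)
    (halt : ∀ x y, C x y = - C y x) (hnd : ∀ x, (∀ y, C x y = 0) → x = 0) :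
    Even (finrank K V) := by
  classical
  let b := Module.finBasis K V
  have h1 : (LinearMap.toMatrix₂ b b C).det ≠ 0 := by
    rw [← LinearMap.separatingLeft_iff_det_ne_zero]
    exact hnd
  set M := LinearMap.toMatrix₂ b b C with hM
  have h2 : M.transpose = - M := by
    ext i j
    rw [Matrix.transpose_apply, Matrix.neg_apply, hM, LinearMap.toMatrix₂_apply,
      LinearMap.toMatrix₂_apply]
    exact halt _ _
  have h3 : M.det = (-1) ^ (finrank K V) * M.det := by
    conv_lhs => rw [← Matrix.det_transpose, h2, Matrix.det_neg, Fintype.card_fin]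
  by_contra hodd
  rw [Nat.not_even_iff_odd] at hodd
  rw [hodd.neg_one_pow, neg_one_mul] at h3
  have h4 : (2 : K) * M.det = 0 := by
    have : M.det + M.det = 0 := by
      nth_rewrite 2 [h3]
      exact add_neg_cancel _
    rw [two_mul]; exact this
  rcases mul_eq_zero.1 h4 with h | h
  · exact two_ne_zero h
  · exact h1 h

/-- The rank of an antisymmetric form is even. -/
theorem even_rank [FiniteDimensional K V] (C : V →ₗ[K] V →ₗ[K] K)
    (halt : ∀ x y, C x y = - C y x) (R : Submodule K V) (hR : ∀ x, x ∈ R ↔ ∀ y, C x y = 0) :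
    ∃ m, finrank K V = finrank K R + 2 * m := by
  obtain ⟨S, hS⟩ := Submodule.exists_isCompl R
  have h1 := Submodule.finrank_add_eq_of_isCompl hS
  have h2 : Even (finrank K S) := by
    refine even_of_alt (C.domRestrict₁₂ S S) (fun x y => halt _ _) fun x hx => ?_
    apply Subtype.ext
    have h3 : (x : V) ∈ R := by
      rw [hR]
      intro y
      obtain ⟨r, hr, s, hs, rfl⟩ := Submodule.mem_sup.1
        (show y ∈ R ⊔ S by rw [hS.sup_eq_top]; exact Submodule.mem_top)
      rw [map_add, halt _ r, (hR r).1 hr, neg_zero, zero_add]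
      exact hx ⟨s, hs⟩
    have h4 : (x : V) ∈ R ⊓ S := ⟨h3, x.2⟩
    rw [hS.inf_eq_bot] at h4
    exact (Submodule.mem_bot _).1 h4
  obtain ⟨m, hm⟩ := h2
  exact ⟨m, by omega⟩

/-- **Parity.** The codimension of the space of the fixed vectors of a unipotent isometry of a
nondegenerate symmetric form is even. -/
theorem parity [FiniteDimensional K V] (B : V →ₗ[K] V →ₗ[K] K) (hsymm : ∀ x y, B x y = B y x)
    (hnd : ∀ x, (∀ y, B x y = 0) → x = 0) (u : Module.End K V)
    (hu : ∀ x y, B (u x) (u y) = B x y) {n : ℕ} (hn : ∀ x, ((u - 1) ^ n) x = 0)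
    (R : Submodule K V) (hR : ∀ x, x ∈ R ↔ u x = x) :
    ∃ m, finrank K V = finrank K R + 2 * m := by
  -- `u` is bijective and `u + 1` is injective
  have hinj : Function.Injective u := by
    rw [← LinearMap.ker_eq_bot, LinearMap.ker_eq_bot']
    intro x hx
    refine hnd x fun y => ?_
    rw [← hu, hx, map_zero, LinearMap.zero_apply]
  have hsurj : Function.Surjective u := LinearMap.injective_iff_surjective.1 hinj
  have hplus : ∀ x, u x = - x → x = 0 := by
    intro x hx
    have h1 : ∀ m : ℕ, ((u - 1) ^ m) x = (-2 : K) ^ m • x := by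
      intro m
      induction m with
      | zero => simp
      | succ m ih =>
        rw [pow_succ', Module.End.mul_apply, ih, map_smul, LinearMap.sub_apply, hx,
          Module.End.one_apply, pow_succ, mul_smul]
        congr 1
        module
    have h2 := h1 n
    rw [hn] at h2
    exact (smul_eq_zero.1 h2.symm).resolve_left (pow_ne_zero _ (by norm_num))
  let C : V →ₗ[K] V →ₗ[K] K := B ∘ₗ u - (B.compl₂ u)
  have hC : ∀ x y, C x y = B (u x) y - B x (u y) := fun x y => rfl
  refine even_rank C (fun x y => ?_) R fun x => ?_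
  · rw [hC, hC, hsymm (u x) y, hsymm x (u y)]; ring
  · rw [hR]
    constructor
    · intro h y
      rw [hC, h]
      nth_rewrite 2 [← h]
      rw [hu, sub_self]
    · intro h
      have h1 : u (u x) - x = 0 := by
        refine hnd _ fun y => ?_
        obtain ⟨y, rfl⟩ := hsurj y
        rw [map_sub, LinearMap.sub_apply, hu]
        exact h y
      have h2 : u (u x - x) = - (u x - x) := by
        rw [map_sub, sub_eq_zero.1 h1]; abel
      exact sub_eq_zero.1 (hplus _ h2)

/-- A nonzero stable subspace contains a nonzero fixed vector. -/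
theorem exists_fixed_ne (u : Module.End K V) {n : ℕ} (hn : ∀ x, ((u - 1) ^ n) x = 0)
    {S : Submodule K V} (hS : ∀ x ∈ S, u x ∈ S) (hne : S ≠ ⊥) : ∃ x ∈ S, x ≠ 0 ∧ u x = x := by
  obtain ⟨x, hx, hx0⟩ := (Submodule.ne_bot_iff S).1 hne
  have hst : ∀ m : ℕ, ((u - 1) ^ m : Module.End K V) x ∈ S := by
    intro m
    induction m with
    | zero => exact hx
    | succ m ih =>
      rw [pow_succ', Module.End.mul_apply, LinearMap.sub_apply, Module.End.one_apply]
      exact Submodule.sub_mem _ (hS _ ih) ih
  classical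
  have hex : ∃ m : ℕ, ((u - 1) ^ m : Module.End K V) x = 0 := ⟨n, hn x⟩
  have h1 := Nat.find_spec hex
  have h2 : Nat.find hex ≠ 0 := by
    intro h0
    rw [h0] at h1
    exact hx0 h1
  obtain ⟨m, hm⟩ := Nat.exists_eq_succ_of_ne_zero h2
  refine ⟨((u - 1) ^ m) x, hst m, Nat.find_min hex (by omega), ?_⟩
  rw [hm, Nat.succ_eq_add_one, pow_succ', Module.End.mul_apply, LinearMap.sub_apply,
    Module.End.one_apply, sub_eq_zero] at h1
  exact h1

/-- **The gap.** -/
theorem gap [FiniteDimensional K V] (B : V →ₗ[K] V →ₗ[K] K) (u : Module.End K V) (hu : ∀ x y, B (u x) (u y) = B x y) {n : ℕ}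
    (hn : ∀ x, ((u - 1) ^ n) x = 0) (R : Submodule K V) (hR : ∀ x, x ∈ R ↔ u x = x)
    {r : ℕ} (z : Fin r → V) (hz : ∀ i, z i ∈ R)
    (hdet : (Matrix.of fun i j => B (z i) (z j)).det ≠ 0) :
    r ≤ finrank K R ∧ (r < finrank K V → r < finrank K R) := by
  classical
  -- the vectors are linearly independent
  have hli : LinearIndependent K z := by
    rw [Fintype.linearIndependent_iff]
    intro g hg
    have h1 : Matrix.vecMul g (Matrix.of fun i j => B (z i) (z j)) = 0 := by
      funext j
      rw [Matrix.vecMul, dotProduct, Pi.zero_apply]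
      have h2 := congrArg (fun v => B v (z j)) hg
      simp only [map_sum, map_smul, LinearMap.sum_apply, LinearMap.smul_apply, map_zero,
        LinearMap.zero_apply, smul_eq_mul] at h2
      simpa using h2
    have h2 := Matrix.eq_zero_of_vecMul_eq_zero hdet h1
    exact fun i => congrFun h2 i
  set A : Submodule K V := Submodule.span K (Set.range z) with hA
  have hAr : finrank K A = r := by
    rw [hA, finrank_span_eq_card hli, Fintype.card_fin]
  have hAR : A ≤ R := by
    rw [hA, Submodule.span_le]
    rintro _ ⟨i, rfl⟩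
    exact hz i
  refine ⟨hAr ▸ Submodule.finrank_mono hAR, fun hlt => ?_⟩
  -- the orthogonal complement of `A`
  let S : Submodule K V :=
    { carrier := {x | ∀ i, B x (z i) = 0}
      add_mem' := fun ha hb i => by rw [map_add, LinearMap.add_apply, ha i, hb i, add_zero]
      zero_mem' := fun i => by rw [map_zero, LinearMap.zero_apply]
      smul_mem' := fun c x hx i => by rw [map_smul, LinearMap.smul_apply, hx i, smul_zero] }
  have hSne : S ≠ ⊥ := by
    intro hbot
    let f : V →ₗ[K] (Fin r → K) := LinearMap.pi fun i => B.flip (z i)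
    have hf : Function.Injective f := by
      rw [← LinearMap.ker_eq_bot, LinearMap.ker_eq_bot']
      intro x hx
      have h1 : x ∈ S := fun i => congrFun hx i
      rw [hbot] at h1
      exact (Submodule.mem_bot _).1 h1
    have h2 := LinearMap.finrank_le_finrank_of_injective hf
    rw [Module.finrank_fin_fun] at h2
    omega
  have hSst : ∀ x ∈ S, u x ∈ S := by
    intro x hx i
    have h1 : u (z i) = z i := (hR _).1 (hz i)
    rw [← h1, hu]
    exact hx i
  obtain ⟨x, hxS, hx0, hx⟩ := exists_fixed_ne u hn hSst hSne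
  by_contra hcon
  have h1 : finrank K R ≤ finrank K A := by rw [hAr]; omega
  have h2 : A = R := Submodule.eq_of_le_of_finrank_le hAR h1
  have h3 : x ∈ A := by rw [h2, hR]; exact hx
  -- `x` is orthogonal to `A` and lies in `A`
  rw [hA, Submodule.mem_span_range_iff_exists_fun] at h3
  obtain ⟨g, hg⟩ := h3
  have h4 : Matrix.vecMul g (Matrix.of fun i j => B (z i) (z j)) = 0 := by
    funext j
    rw [Matrix.vecMul, dotProduct, Pi.zero_apply]
    have h5 := hxS j
    rw [← hg] at h5
    simp only [map_sum, map_smul, LinearMap.sum_apply, LinearMap.smul_apply, smul_eq_mul] at h5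
    simpa using h5
  have h5 := Matrix.eq_zero_of_vecMul_eq_zero hdet h4
  apply hx0
  rw [← hg]
  exact Finset.sum_eq_zero fun i _ => by rw [congrFun h5 i]; simp

/-- The generalised eigenspace is orthogonal to the image. -/
theorem orth_range (B : V →ₗ[K] V →ₗ[K] K) (u : Module.End K V)
    (hu : ∀ x y, B (u x) (u y) = B x y) (n : ℕ) :
    ∀ x, ((u - 1) ^ n : Module.End K V) x = 0 →
      ∀ y, B x (((u - 1) ^ n : Module.End K V) y) = 0 := by
  induction n with
  | zero =>
    intro x hx y
    rw [pow_zero, Module.End.one_apply] at hx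
    rw [hx, map_zero, LinearMap.zero_apply]
  | succ n ih =>
    intro x hx y
    have h1 : ((u - 1) ^ n : Module.End K V) ((u - 1) x) = 0 := by
      rw [← Module.End.mul_apply, ← pow_succ]; exact hx
    have hc : ∀ w, ((u - 1) ^ n : Module.End K V) (u w) = u (((u - 1) ^ n : Module.End K V) w) := by
      intro w
      have h2 : Commute ((u - 1) ^ n) u := by
        refine Commute.pow_left ?_ n
        exact (Commute.refl u).sub_left (Commute.one_left u)
      exact congrArg (fun f : Module.End K V => f w) h2.eq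
    rw [pow_succ', Module.End.mul_apply, LinearMap.sub_apply, Module.End.one_apply, map_sub]
    set w := ((u - 1) ^ n : Module.End K V) y with hw
    have h2 : B x w = B (u x) (u w) := (hu x w).symm
    have h3 : B ((u - 1) x) (u w) = 0 := by
      rw [hw, ← hc]
      exact ih _ h1 _
    rw [LinearMap.sub_apply, Module.End.one_apply, map_sub, LinearMap.sub_apply] at h3
    rw [h2]
    have h4 := sub_eq_zero.1 h3
    rw [h4, sub_self]

/-- The generalised eigenspace is nondegenerate. -/
theorem nondeg_gen [FiniteDimensional K V] (B : V →ₗ[K] V →ₗ[K] K)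
    (hnd : ∀ x, (∀ y, B x y = 0) → x = 0) (u : Module.End K V)
    (hu : ∀ x y, B (u x) (u y) = B x y) {n : ℕ} (hn : finrank K V ≤ n) (x : V)
    (hx : ((u - 1) ^ n : Module.End K V) x = 0)
    (h : ∀ y, ((u - 1) ^ n : Module.End K V) y = 0 → B x y = 0) : x = 0 := by
  apply hnd
  set f : Module.End K V := (u - 1) ^ n with hf
  have h3 : LinearMap.ker f ⊓ LinearMap.range f = ⊥ := by
    rw [eq_bot_iff]
    rintro _ ⟨hk, m, rfl⟩
    have h4 : m ∈ LinearMap.ker ((u - 1) ^ (n + n)) := by
      rw [LinearMap.mem_ker, pow_add, Module.End.mul_apply]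
      exact hk
    rw [Module.End.ker_pow_eq_ker_pow_finrank_of_le (hn.trans (Nat.le_add_left n n)),
      ← Module.End.ker_pow_eq_ker_pow_finrank_of_le hn] at h4
    exact h4
  have h4 : LinearMap.ker f ⊔ LinearMap.range f = ⊤ := by
    apply Submodule.eq_top_of_finrank_eq
    have h5 := Submodule.finrank_sup_add_finrank_inf_eq (LinearMap.ker f) (LinearMap.range f)
    have h6 := LinearMap.finrank_range_add_finrank_ker f
    rw [h3, finrank_bot] at h5
    omega
  intro y
  have h5 : y ∈ LinearMap.ker f ⊔ LinearMap.range f := h4 ▸ Submodule.mem_top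
  obtain ⟨a, ha, _, ⟨b, rfl⟩, rfl⟩ := Submodule.mem_sup.1 h5
  rw [map_add, h a ha, zero_add]
  exact orth_range B u hu n x hx b

/-- Parity and gap for the generalised eigenspace of an isometry for the eigenvalue one. -/
theorem main_lin [FiniteDimensional K V] (B : V →ₗ[K] V →ₗ[K] K)
    (hsymm : ∀ x y, B x y = B y x) (hnd : ∀ x, (∀ y, B x y = 0) → x = 0) (u : Module.End K V)
    (hu : ∀ x y, B (u x) (u y) = B x y) {n : ℕ} (hn : finrank K V ≤ n) (hn1 : 1 ≤ n) :
    (∃ m, finrank K (LinearMap.ker ((u - 1) ^ n)) =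
      finrank K (LinearMap.ker (u - 1)) + 2 * m) ∧
    ∀ (r : ℕ) (z : Fin r → V), (∀ i, u (z i) = z i) →
      (Matrix.of fun i j => B (z i) (z j)).det ≠ 0 →
      r ≤ finrank K (LinearMap.ker (u - 1)) ∧
      (r < finrank K (LinearMap.ker ((u - 1) ^ n)) → r < finrank K (LinearMap.ker (u - 1))) := by
  set P := LinearMap.ker ((u - 1) ^ n) with hP
  set R := LinearMap.ker (u - 1) with hR
  have hmem : ∀ x, x ∈ R ↔ u x = x := by
    intro x
    rw [hR, LinearMap.mem_ker, LinearMap.sub_apply, Module.End.one_apply, sub_eq_zero]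
  have hRP : R ≤ P := by
    intro x hx
    rw [hR, LinearMap.mem_ker] at hx
    rw [hP, LinearMap.mem_ker]
    obtain ⟨m, rfl⟩ := Nat.exists_eq_add_of_le hn1
    rw [add_comm, pow_succ, Module.End.mul_apply, hx, map_zero]
  have hc : Commute ((u - 1) ^ n) u := by
    refine Commute.pow_left ?_ n
    exact (Commute.refl u).sub_left (Commute.one_left u)
  have hPu : ∀ x ∈ P, u x ∈ P := by
    intro x hx
    rw [hP, LinearMap.mem_ker] at hx ⊢
    have h1 := congrArg (fun f : Module.End K V => f x) hc.eq
    simp only [Module.End.mul_apply] at h1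
    rw [h1, hx, map_zero]
  let v : Module.End K P := u.restrict hPu
  let BP : P →ₗ[K] P →ₗ[K] K := B.domRestrict₁₂ P P
  have hv : ∀ x : P, ((v x : P) : V) = u x := fun x => rfl
  have hvp : ∀ (m : ℕ) (x : P), ((((v - 1) ^ m : Module.End K P) x : P) : V) =
      ((u - 1) ^ m : Module.End K V) x := by
    intro m
    induction m with
    | zero => intro x; rfl
    | succ m ih =>
      intro x
      rw [pow_succ, pow_succ, Module.End.mul_apply, Module.End.mul_apply, ih]
      rfl
  have hvn : ∀ x : P, ((v - 1) ^ n : Module.End K P) x = 0 := by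
    intro x
    apply Subtype.ext
    rw [hvp]
    exact x.2
  let R' : Submodule K P := R.comap P.subtype
  have hR' : ∀ x, x ∈ R' ↔ v x = x := by
    intro x
    constructor
    · intro h
      exact Subtype.ext ((hmem _).1 h)
    · intro h
      exact (hmem _).2 (congrArg Subtype.val h)
  have hdim : finrank K R' = finrank K R :=
    LinearEquiv.finrank_eq (Submodule.comapSubtypeEquivOfLe hRP)
  refine ⟨?_, ?_⟩
  · obtain ⟨m, hm⟩ := parity BP (fun x y => hsymm _ _) (fun x hx => by
      apply Subtype.ext
      exact nondeg_gen B hnd u hu hn x x.2 fun y hy => hx ⟨y, hy⟩) v (fun x y => hu _ _) hvn R' hR'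
    exact ⟨m, by rw [hm, hdim]⟩
  · intro r z hz hdet
    have h1 := gap BP v (fun x y => hu _ _) hvn R' hR'
      (fun i => (⟨z i, hRP ((hmem _).2 (hz i))⟩ : P)) (fun i => (hmem _).2 (hz i)) hdet
    rwa [hdim] at h1

end Pool.Agent.Q56.PG
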